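import Mathlib

set_option autoImplicit false
open Set Filter Topology

namespace Pool.Agent.H.MP_8d66ab_an

theorem bump0 (k : ℕ) : ∃ (B : ℝ) (W W' W'' : ℝ → ℝ), (∀ t, HasDerivAt W (W' t) t) ∧
    (∀ t, HasDerivAt W' (W'' t) t) ∧ (∀ t, |W t| ≤ B ∧ |W' t| ≤ B ∧ |W'' t| ≤ B) ∧
    (∀ t, |t| ≤ 1 → W t = t ^ k) ∧ ∀ t, 2 ≤ |t| → W t = 0 := by
  let χ : ContDiffBump (0 : ℝ) := ⟨1, 2, one_pos, one_lt_two⟩
  obtain ⟨W, hW⟩ : ∃ W : ℝ → ℝ, W = fun t => χ t * t ^ k := ⟨_, rfl⟩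
  have h1 : ContDiff ℝ 2 W := by rw [hW]; exact χ.contDiff.mul (contDiff_id.pow k)
  have h2 : HasCompactSupport W := by rw [hW]; exact χ.hasCompactSupport.mul_right
  have h3 : ContDiff ℝ 1 (deriv W) := h1.deriv'
  obtain ⟨B0, b0⟩ := h1.continuous.bounded_above_of_compact_support h2
  obtain ⟨B1, b1⟩ := h3.continuous.bounded_above_of_compact_support h2.deriv
  obtain ⟨B2, b2⟩ := (h3.continuous_deriv le_rfl).bounded_above_of_compact_support h2.deriv.deriv
  refine ⟨max B0 (max B1 B2), W, deriv W, deriv (deriv W),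
    fun t => (h1.differentiable (by norm_num) t).hasDerivAt,
    fun t => (h3.differentiable (by norm_num) t).hasDerivAt,
    fun t => ⟨(b0 t).trans (le_max_left _ _),
      (b1 t).trans ((le_max_left _ _).trans (le_max_right _ _)),
      (b2 t).trans ((le_max_right _ _).trans (le_max_right _ _))⟩, fun t ht => ?_, fun t ht => ?_⟩
  · rw [hW]
    simp only
    rw [χ.one_of_mem_closedBall (by simpa using ht), one_mul]
  · rw [hW]
    simp only
    rw [χ.zero_of_le_dist (by simpa using ht), zero_mul]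

theorem comb {a b c x y z ε B : ℝ} (ha : |a| ≤ ε) (hb : |b| ≤ ε) (hc : |c| ≤ ε) (hx : |x| ≤ B)
    (hy : |y| ≤ B) (hz : |z| ≤ B) : |a * x + b * y + c * z| ≤ 3 * B * ε := by
  have h : ∀ a x : ℝ, |a| ≤ ε → |x| ≤ B → |a * x| ≤ B * ε := fun a x ha hx => by
    rw [abs_mul, mul_comm]
    exact mul_le_mul hx ha (abs_nonneg _) ((abs_nonneg _).trans hx)
  linarith [abs_add_three (a * x) (b * y) (c * z), h a x ha hx, h b y hb hy, h c z hc hz]

theorem bump (M : ℝ) : ∃ B : ℝ, ∀ x s d0 d1 d2 ε : ℝ, 0 < s → s ≤ M → |d0| ≤ ε * s ^ 2 →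
    |d1| ≤ ε * s → |d2| ≤ ε → ∃ u u' u'' : ℝ → ℝ, (∀ t, HasDerivAt u (u' t) t) ∧
    (∀ t, HasDerivAt u' (u'' t) t) ∧ (∀ t, |u t| ≤ B * ε ∧ |u' t| ≤ B * ε ∧ |u'' t| ≤ B * ε) ∧
    (∀ t, |t - x| ≤ s → u t = d0 + d1 * (t - x) + d2 * (t - x) ^ 2) ∧
    ∀ t, 2 * s ≤ |t - x| → u t = 0 := by
  choose B W W' W'' h1 h2 h3 h4 h5 using bump0
  obtain ⟨C, hC⟩ : ∃ C, ∀ k ≤ 2, B k ≤ C := ⟨max (B 0) (max (B 1) (B 2)), fun k hk => by
    interval_cases k <;> simp⟩
  have C0 : 0 ≤ C := (abs_nonneg _).trans ((h3 0 0).1.trans (hC 0 (by norm_num)))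
  refine ⟨(M ^ 2 + M + 1) * (3 * C), fun x s d0 d1 d2 ε hs hM a0 a1 a2 => ?_⟩
  have hε : 0 ≤ ε := (abs_nonneg _).trans a2
  have e0 : |d0 / s ^ 2| ≤ ε := by rwa [abs_div, abs_of_pos (pow_pos hs 2), div_le_iff₀ (pow_pos hs 2)]
  have e1 : |d1 / s| ≤ ε := by rwa [abs_div, abs_of_pos hs, div_le_iff₀ hs]
  have hd : ∀ t, HasDerivAt (fun t => (t - x) / s) (1 / s) t := fun t =>
    ((hasDerivAt_id t).sub_const x).div_const s
  have D : ∀ V V' : ℕ → ℝ → ℝ, (∀ k t, HasDerivAt (V k) (V' k t) t) → ∀ t, HasDerivAt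
      (fun t => d0 / s ^ 2 * V 0 ((t - x) / s) + d1 / s * V 1 ((t - x) / s) + d2 * V 2 ((t - x) / s))
      ((d0 / s ^ 2 * V' 0 ((t - x) / s) + d1 / s * V' 1 ((t - x) / s) + d2 * V' 2 ((t - x) / s)) *
        (1 / s)) t := fun V V' h t => by
    have := ((((h 0 _).comp t (hd t)).const_mul (d0 / s ^ 2)).add
      (((h 1 _).comp t (hd t)).const_mul (d1 / s))).add (((h 2 _).comp t (hd t)).const_mul d2)
    exact this.congr_deriv (by ring)
  have hK : 0 ≤ 3 * C * ε := by positivity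
  have M0 : 0 < M := hs.trans_le hM
  refine ⟨fun t => s ^ 2 * (d0 / s ^ 2 * W 0 ((t - x) / s) + d1 / s * W 1 ((t - x) / s) +
      d2 * W 2 ((t - x) / s)), fun t => s * (d0 / s ^ 2 * W' 0 ((t - x) / s) +
      d1 / s * W' 1 ((t - x) / s) + d2 * W' 2 ((t - x) / s)), fun t => d0 / s ^ 2 *
      W'' 0 ((t - x) / s) + d1 / s * W'' 1 ((t - x) / s) + d2 * W'' 2 ((t - x) / s),
    fun t => ((D W W' h1 t).const_mul _).congr_deriv (by field_simp),
    fun t => ((D W' W'' h2 t).const_mul _).congr_deriv (by field_simp),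
    fun t => ⟨?_, ?_, ?_⟩, fun t ht => ?_, fun t ht => ?_⟩
  · have := comb e0 e1 a2 ((h3 0 ((t - x) / s)).1.trans (hC 0 (by norm_num)))
      ((h3 1 ((t - x) / s)).1.trans (hC 1 (by norm_num))) ((h3 2 ((t - x) / s)).1.trans (hC 2 le_rfl))
    rw [abs_mul, abs_of_pos (pow_pos hs 2), mul_assoc]
    exact mul_le_mul (by nlinarith) this (abs_nonneg _) (by positivity)
  · have := comb e0 e1 a2 ((h3 0 ((t - x) / s)).2.1.trans (hC 0 (by norm_num)))
      ((h3 1 ((t - x) / s)).2.1.trans (hC 1 (by norm_num)))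
      ((h3 2 ((t - x) / s)).2.1.trans (hC 2 le_rfl))
    rw [abs_mul, abs_of_pos hs, mul_assoc]
    exact mul_le_mul (by nlinarith) this (abs_nonneg _) (by positivity)
  · have := comb e0 e1 a2 ((h3 0 ((t - x) / s)).2.2.trans (hC 0 (by norm_num)))
      ((h3 1 ((t - x) / s)).2.2.trans (hC 1 (by norm_num)))
      ((h3 2 ((t - x) / s)).2.2.trans (hC 2 le_rfl))
    rw [mul_assoc]
    nlinarith [mul_nonneg (show 0 ≤ M ^ 2 + M by positivity) hK]
  · have : |(t - x) / s| ≤ 1 := by rwa [abs_div, abs_of_pos hs, div_le_one hs]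
    simp only [h4 _ _ this]
    field_simp
  · have : 2 ≤ |(t - x) / s| := by rwa [abs_div, abs_of_pos hs, le_div_iff₀ hs]
    simp [h5 _ _ this]

/-- nodes of the Cantor scheme -/
structure Nd where
  x : ℝ
  r : ℝ
  p : ℝ
  q : ℝ
  s : ℝ

instance : Inhabited Nd := ⟨⟨0, 0, 0, 0, 0⟩⟩

/-- the conclusion -/
def Done (g : ℝ → ℝ) : Prop := ∃ f : ℝ → ℝ, Differentiable ℝ f ∧ Differentiable ℝ (deriv f) ∧
  ¬ Set.Countable {x : ℝ | f x = g x}

/-- child relation -/
def Ch (g : ℝ → ℝ) (ν c : Nd) (ε : ℝ) : Prop :=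
  c.r ≤ c.s ∧ |c.x - ν.x| + 2 * c.s ≤ ν.r ∧
    |g c.x - (g ν.x + ν.p * (c.x - ν.x) + ν.q * (c.x - ν.x) ^ 2)| ≤ ε * c.s ^ 2 ∧
    |c.p - (ν.p + 2 * ν.q * (c.x - ν.x))| ≤ ε * c.s ∧ |c.q - ν.q| ≤ ε

/-- initial segments of a branch -/
def br (ξ : ℕ → Bool) : ℕ → List Bool
  | 0 => []
  | n + 1 => ξ n :: br ξ n

theorem br_len (ξ : ℕ → Bool) (n : ℕ) : (br ξ n).length = n := by
  induction n with
  | zero => rfl
  | succ n ih => simp [br, ih]

theorem tree (g : ℝ → ℝ) (hg : Continuous g) (M : ℝ) (T : List Bool → Nd)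
    (w : Bool × List Bool → ℝ) (hw : Summable w)
    (hb : ∀ s, 0 < (T s).r ∧ (T s).r ≤ M ∧ |(T s).p| ≤ M ∧ |(T s).q| ≤ M)
    (hc : ∀ b s, Ch g (T s) (T (b :: s)) (w (b, s)))
    (hs : ∀ s, 2 * (T (false :: s)).s + 2 * (T (true :: s)).s ≤
      |(T (true :: s)).x - (T (false :: s)).x|) : Done g := by
  obtain ⟨P, hP⟩ : ∃ P : List Bool → ℝ → ℝ, ∀ s y, P s y =
      g (T s).x + (T s).p * (y - (T s).x) + (T s).q * (y - (T s).x) ^ 2 := ⟨_, fun _ _ => rfl⟩
  have s0 : ∀ b s, 0 < (T (b :: s)).s := fun b s => (hb _).1.trans_le (hc b s).1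
  have s1 : ∀ b s, 2 * (T (b :: s)).s ≤ (T s).r := fun b s => by
    linarith [(hc b s).2.1, abs_nonneg ((T (b :: s)).x - (T s).x)]
  obtain ⟨B, hB⟩ := bump M
  choose u u' u'' h1 h2 h3 h4 h5 using fun i : Bool × List Bool => hB (T (i.1 :: i.2)).x
    (T (i.1 :: i.2)).s _ _ _ (w i) (s0 _ _) (by linarith [s0 i.1 i.2, s1 i.1 i.2, (hb i.2).2.1])
    (hc i.1 i.2).2.2.1 (hc i.1 i.2).2.2.2.1 (hc i.1 i.2).2.2.2.2
  have hw' : Summable fun i => B * w i := hw.mul_left B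
  have su : ∀ y, Summable fun i => u i y := fun y => .of_norm_bounded hw' fun i => (h3 i y).1
  have su' : ∀ y, Summable fun i => u' i y := fun y => .of_norm_bounded hw' fun i => (h3 i y).2.1
  have d1 := hasDerivAt_tsum hw' h1 (fun i y => (h3 i y).2.1) (su 0)
  have d2 := hasDerivAt_tsum hw' h2 (fun i y => (h3 i y).2.2) (su' 0)
  have d3 : ∀ y, HasDerivAt (fun y => P [] y + ∑' i, u i y)
      ((T []).p + (T []).q * (2 * (y - (T []).x)) + ∑' i, u' i y) y := fun y => by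
    refine HasDerivAt.add ?_ (d1 y)
    simp only [funext (hP [])]
    have a := (hasDerivAt_id y).sub_const (T []).x
    exact (((a.const_mul (T []).p).const_add _).add ((a.pow 2).const_mul (T []).q)).congr_deriv
      (by simp)
  refine ⟨fun y => P [] y + ∑' i, u i y, fun y => (d3 y).differentiableAt, ?_, fun hcount => ?_⟩
  · rw [funext fun y => (d3 y).deriv]
    exact Differentiable.add (by fun_prop) fun y => (d2 y).differentiableAt
  have pt : ∀ ξ : ℕ → Bool, ∃ y, ∀ n, |y - (T (br ξ n)).x| ≤ (T (br ξ n)).r := fun ξ => by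
    obtain ⟨y, hy⟩ := IsCompact.nonempty_iInter_of_sequence_nonempty_isCompact_isClosed
      (fun n => Metric.closedBall (T (br ξ n)).x (T (br ξ n)).r)
      (fun n => Metric.closedBall_subset_closedBall' (by
        have := hc (ξ n) (br ξ n)
        rw [Real.dist_eq]
        change (T (ξ n :: br ξ n)).r + |(T (ξ n :: br ξ n)).x - _| ≤ _
        linarith [this.1, this.2.1, s0 (ξ n) (br ξ n)]))
      (fun n => Metric.nonempty_closedBall.2 (hb _).1.le) (isCompact_closedBall _ _)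
      fun n => Metric.isClosed_closedBall
    exact ⟨y, fun n => by simpa [Real.dist_eq] using mem_iInter.1 hy n⟩
  choose Y hY using pt
  have path : ∀ ξ s b, |Y ξ - (T (b :: s)).x| < 2 * (T (b :: s)).s →
      b :: s = br ξ (s.length + 1) := by
    intro ξ s
    have last : ∀ b n, |Y ξ - (T (b :: br ξ n)).x| < 2 * (T (b :: br ξ n)).s → b = ξ n := by
      intro b n h
      by_contra hn
      have a1 : |Y ξ - (T (ξ n :: br ξ n)).x| ≤ (T (ξ n :: br ξ n)).r := hY ξ (n + 1)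
      have a2 := (hc (ξ n) (br ξ n)).1
      have a3 := hs (br ξ n)
      have a4 := s0 (ξ n) (br ξ n)
      have a5 := abs_sub_le (T (true :: br ξ n)).x (Y ξ) (T (false :: br ξ n)).x
      rw [abs_sub_comm _ (Y ξ)] at a5
      cases b <;> cases e : ξ n <;> simp only [e] at a1 a2 a4 hn <;> first
        | exact hn rfl
        | exact hn trivial
        | linarith
    induction s with
    | nil => intro b h; rw [last b 0 h]; rfl
    | cons a s ih =>
      intro b h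
      have a1 := (hc b (a :: s)).2.1
      have a2 := abs_sub_le (Y ξ) (T (b :: a :: s)).x (T (a :: s)).x
      have a3 := ih a (by linarith [(hc a s).1, s0 a s])
      rw [a3] at h ⊢
      rw [last b _ h, br_len]
      rfl
  have inj : Y.Injective := fun ξ ξ' e => funext fun n => by
    have a1 : |Y ξ' - (T (ξ' n :: br ξ' n)).x| ≤ (T (ξ' n :: br ξ' n)).r := hY ξ' (n + 1)
    have := path ξ (br ξ' n) (ξ' n) (by
      rw [e]; linarith [(hc (ξ' n) (br ξ' n)).1, s0 (ξ' n) (br ξ' n)])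
    rw [br_len] at this
    exact (List.cons.inj this).1.symm
  have val : ∀ ξ, P [] (Y ξ) + ∑' i, u i (Y ξ) = g (Y ξ) := fun ξ => by
    have j : Function.Injective fun n => (ξ n, br ξ n) := fun n m e => by
      have := congrArg (fun i : Bool × List Bool => i.2.length) e
      simpa [br_len] using this
    have a1 := (j.hasSum_iff (f := fun i => u i (Y ξ)) fun i hi => h5 i _ (by
      by_contra hn
      have := path ξ i.2 i.1 (not_le.1 hn)
      exact hi ⟨i.2.length, Prod.ext (List.cons.inj this).1.symm (List.cons.inj this).2.symm⟩)).2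
      (su (Y ξ)).hasSum
    have a2 : ∀ n, ((fun i => u i (Y ξ)) ∘ fun n => (ξ n, br ξ n)) n =
        P (br ξ (n + 1)) (Y ξ) - P (br ξ n) (Y ξ) := fun n => by
      have b1 : |Y ξ - (T (ξ n :: br ξ n)).x| ≤ (T (ξ n :: br ξ n)).r := hY ξ (n + 1)
      have := h4 (ξ n, br ξ n) (Y ξ) (b1.trans (hc _ _).1)
      simp only [Function.comp, this, hP, br]
      ring
    have a3 := a1.tendsto_sum_nat
    simp only [a2, Finset.sum_range_sub fun n => P (br ξ n) (Y ξ)] at a3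
    have r0 : Tendsto (fun n => (T (br ξ n)).r) atTop (𝓝 0) := by
      have : ∀ n, (T (br ξ n)).r ≤ M * (1 / 2) ^ n := fun n => by
        induction n with
        | zero => simpa using (hb _).2.1
        | succ n ih =>
          have b1 := s1 (ξ n) (br ξ n)
          have b2 := (hc (ξ n) (br ξ n)).1
          rw [pow_succ, br]
          linarith
      refine squeeze_zero (fun n => (hb _).1.le) this ?_
      simpa using (tendsto_pow_atTop_nhds_zero_of_lt_one (r := (1 / 2 : ℝ)) (by norm_num)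
        (by norm_num)).const_mul M
    have r1 : Tendsto (fun n => Y ξ - (T (br ξ n)).x) atTop (𝓝 0) :=
      squeeze_zero_norm (hY ξ) r0
    have r2 : Tendsto (fun n => (T (br ξ n)).x) atTop (𝓝 (Y ξ)) := by
      simpa using r1.const_sub (Y ξ)
    have r3 : ∀ (c z : ℕ → ℝ), (∀ n, |c n| ≤ M) → Tendsto z atTop (𝓝 0) →
        Tendsto (fun n => c n * z n) atTop (𝓝 0) := fun c z h1 h2 => by
      refine squeeze_zero_norm (a := fun n => M * |z n|) (fun n => ?_) (by simpa using h2.abs.const_mul M)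
      rw [Real.norm_eq_abs, abs_mul]
      exact mul_le_mul_of_nonneg_right (h1 n) (abs_nonneg _)
    have r4 := (((hg.tendsto _).comp r2).add (r3 _ _ (fun n => (hb (br ξ n)).2.2.1) r1)).add
      (r3 _ _ (fun n => (hb (br ξ n)).2.2.2) (by simpa using r1.pow 2))
    have r5 : Tendsto (fun n => P (br ξ n) (Y ξ)) atTop (𝓝 (g (Y ξ))) := by
      simpa [hP] using r4
    have := tendsto_nhds_unique a3 (r5.sub_const _)
    rw [this, br]
    ring
  have := (hcount.preimage_of_injOn inj.injOn).mono (show univ ⊆ _ from fun ξ _ => val ξ)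
  have : Uncountable (ℕ → Bool) := Cardinal.aleph0_lt_mk_iff.1 (by
    simpa using Cardinal.aleph0_lt_continuum)
  exact not_countable_univ ‹(univ : Set (ℕ → Bool)).Countable›

theorem scheme (g : ℝ → ℝ) (hg : Continuous g) (M : ℝ) (G : Nd → ℝ → Prop)
    (hb : ∀ ν ε, G ν ε → 0 < ν.r ∧ ν.r ≤ M ∧ |ν.p| ≤ M ∧ |ν.q| ≤ M) (ν0 : Nd) (ε0 : ℝ) (h0 : G ν0 ε0)
    (split : ∀ ν ε η, G ν ε → 0 < η → ∃ c : Bool → Nd, (∀ b, G (c b) η ∧ Ch g ν (c b) (ε + η)) ∧
      2 * (c false).s + 2 * (c true).s ≤ |(c true).x - (c false).x|) : Done g := by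
  choose! c h1 h2 using split
  obtain ⟨w, w0, a, hw, -⟩ := posSumOfEncodable one_pos (Bool × List Bool)
  obtain ⟨v, v0, hv⟩ : ∃ v : List Bool → ℝ, (∀ s, 0 < v s) ∧ ∀ b s, v s ≤ w (b, s) :=
    ⟨fun s => min (w (false, s)) (w (true, s)), fun s => lt_min (w0 _) (w0 _),
      fun b s => by cases b <;> simp⟩
  obtain ⟨η, η0, η1, η2⟩ : ∃ η : List Bool → ℝ, (∀ s, 0 < η s) ∧ (∀ s, η s ≤ v s) ∧
      ∀ b s, η s ≤ v (b :: s) :=
    ⟨fun s => min (v s) (min (v (false :: s)) (v (true :: s))),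
      fun s => lt_min (v0 _) (lt_min (v0 _) (v0 _)), fun s => min_le_left _ _,
      fun b s => by cases b <;> simp⟩
  let T : List Bool → Nd × ℝ := fun s => s.rec (c ν0 ε0 (v []) true, v [])
    fun b s t => (c t.1 t.2 (η s) b, η s)
  have hT : ∀ s, G (T s).1 (T s).2 ∧ (T s).2 ≤ v s := fun s => by
    induction s with
    | nil => exact ⟨(h1 _ _ _ h0 (v0 _) true).1, le_rfl⟩
    | cons b s ih => exact ⟨(h1 _ _ _ ih.1 (η0 s) b).1, η2 b s⟩
  refine tree g hg M (fun s => (T s).1) (fun i => (T i.2).2 + η i.2)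
    (.of_nonneg_of_le (fun i => ?_) (fun i => ?_) (hw.summable.mul_left 2))
    (fun s => hb _ _ (hT s).1) (fun b s => (h1 _ _ _ (hT s).1 (η0 s) b).2)
    fun s => h2 _ _ _ (hT s).1 (η0 s)
  · exact (abs_nonneg _).trans (h1 _ _ _ (hT i.2).1 (η0 i.2) true).2.2.2.2.2
  · linarith [(hT i.2).2, η1 i.2, hv i.1 i.2]

end Pool.Agent.H.MP_8d66ab_an
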