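import Pool.Agent.H.MP_8d66ab_an.A

set_option autoImplicit false
open Set Filter Topology

namespace Pool.Agent.H.MP_8d66ab_an

/-- `y` minimises `h - s * id` on `[u, v]` -/
def Mn (h : ℝ → ℝ) (u v s y : ℝ) : Prop :=
  y ∈ Icc u v ∧ ∀ z ∈ Icc u v, h y - s * y ≤ h z - s * z

variable {h : ℝ → ℝ} {u v : ℝ}

theorem Mn.mono {s t y z : ℝ} (hy : Mn h u v s y) (hz : Mn h u v t z) (hst : s < t) : y ≤ z := by
  have a1 := hy.2 z hz.1
  have a2 := hz.2 y hy.1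
  by_contra hn
  nlinarith [not_le.1 hn]

theorem Mn.err {s t y z : ℝ} (hy : Mn h u v s y) (hz : Mn h u v t z) :
    |h z - (h y + s * (z - y))| ≤ |t - s| * |z - y| := by
  have a1 := hy.2 z hz.1
  have a2 := hz.2 y hy.1
  rw [abs_of_nonneg (by linarith), ← abs_mul]
  exact le_trans (by linarith) (le_abs_self _)

theorem Mn.der (hd : Differentiable ℝ h) {s y : ℝ} (hy : Mn h u v s y) (huv : u < v)
    (h1 : deriv h u < s) (h2 : s < deriv h v) : deriv h y = s := by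
  have hm : IsMinOn (fun z => h z - s * z) (Icc u v) y := fun z hz => hy.2 z hz
  have d : ∀ z, HasDerivAt (fun z => h z - s * z) (deriv h z - s) z := fun z =>
    (hd z).hasDerivAt.sub (by simpa using (hasDerivAt_id z).const_mul s)
  have c : ∀ z ∈ Icc u v, 0 ≤ (z - y) * (deriv h y - s) := fun z hz => by
    have := hm.localize.hasFDerivWithinAt_nonneg (d y).hasFDerivAt.hasFDerivWithinAt
      (y := z - y) (sub_mem_posTangentConeAt_of_segment_subset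
        ((convex_Icc u v).segment_subset hy.1 hz))
    simpa using this
  have a1 := c u (left_mem_Icc.2 huv.le)
  have a2 := c v (right_mem_Icc.2 huv.le)
  rcases hy.1.1.eq_or_lt with e | e
  · subst e; nlinarith
  rcases hy.1.2.eq_or_lt with e' | e'
  · subst e'; nlinarith
  have b1 : deriv h y - s ≤ 0 := by by_contra hn; nlinarith [not_le.1 hn]
  have b2 : 0 ≤ deriv h y - s := by by_contra hn; nlinarith [not_le.1 hn]
  linarith

theorem exMn (hc : Continuous h) (huv : u ≤ v) (s : ℝ) : ∃ y z, Mn h u v s y ∧ Mn h u v s z ∧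
    ∀ w, Mn h u v s w → y ≤ w ∧ w ≤ z := by
  have c : Continuous fun z => h z - s * z := by fun_prop
  obtain ⟨x, hx, hm⟩ := isCompact_Icc.exists_isMinOn (nonempty_Icc.2 huv) c.continuousOn
  have e : {y | Mn h u v s y} = Icc u v ∩ {y | h y - s * y ≤ h x - s * x} := by
    ext y
    exact ⟨fun hy => ⟨hy.1, hy.2 x hx⟩, fun hy => ⟨hy.1, fun z hz => hy.2.trans (hm hz)⟩⟩
  have k : IsCompact {y | Mn h u v s y} := by
    rw [e]; exact isCompact_Icc.inter_right (isClosed_le c continuous_const)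
  have n : {y | Mn h u v s y}.Nonempty := ⟨x, hx, fun z hz => hm hz⟩
  obtain ⟨y, hy⟩ := k.exists_isLeast n
  obtain ⟨z, hz⟩ := k.exists_isGreatest n
  exact ⟨y, z, hy.1, hz.1, fun w hw => ⟨hy.2 hw, hz.2 hw⟩⟩

theorem near (hc : Continuous h) {s y : ℝ} (hy : Mn h u v s y) {K : Set ℝ} (hK : IsClosed K)
    (hn : ∀ w, Mn h u v s w → w ∉ K) : ∃ κ > 0, ∀ t z, |t - s| < κ → Mn h u v t z → z ∉ K := by
  have c : Continuous fun z => h z - s * z - (h y - s * y) := by fun_prop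
  obtain ⟨μ, μ0, hμ⟩ := (isCompact_Icc.inter_right hK (s := Icc u v)).exists_forall_le'
    c.continuousOn (a := 0) fun w hw => by
      by_contra hn2
      exact hn w ⟨hw.1, fun z hz => by linarith [hy.2 z hz, not_lt.1 hn2]⟩ hw.2
  have uv : 0 < v - u + 1 := by linarith [hy.1.1, hy.1.2]
  refine ⟨μ / (v - u + 1), by positivity, fun t z ht hz hzK => ?_⟩
  have a1 := hμ z ⟨hz.1, hzK⟩
  have a2 := (le_abs_self _).trans (hy.err hz)
  have a3 : |z - y| ≤ v - u + 1 := by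
    rw [abs_le]; constructor <;> linarith [hy.1.1, hy.1.2, hz.1.1, hz.1.2]
  rw [lt_div_iff₀ uv] at ht
  nlinarith [mul_le_mul_of_nonneg_left a3 (abs_nonneg (t - s))]

theorem case1 (hc : Continuous h) (huv : u ≤ v) {σ τ : ℝ} (hστ : σ < τ)
    (hB : ∀ a b, σ ≤ a → a < b → b ≤ τ → ∃ s ∈ Ioo a b, ∃ y z, y < z ∧ Mn h u v s y ∧ Mn h u v s z) :
    Done h := by
  have hB' : ∀ a b, σ ≤ a → a < b → b ≤ τ → ∃ s ∈ Ioo a b, ∃ y z, y < z ∧ Mn h u v s y ∧
      Mn h u v s z ∧ ∀ w, Mn h u v s w → y ≤ w ∧ w ≤ z := fun a b h1 h2 h3 => by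
    obtain ⟨s, hs, y, z, e, hy, hz⟩ := hB a b h1 h2 h3
    obtain ⟨y', z', b1, b2, b3⟩ := exMn hc huv s
    exact ⟨s, hs, y', z', by linarith [(b3 y hy).1, (b3 z hz).2], b1, b2, b3⟩
  obtain ⟨s0, hs0, y0, z0, c1, c2, c3, c4⟩ := hB' σ τ le_rfl hστ le_rfl
  refine scheme h hc (2 * (v - u) + |σ| + |τ|) (fun ν ε => 0 ≤ ε ∧ ν.q = 0 ∧ ν.p ∈ Ioo σ τ ∧
    ∃ z, ν.x < z ∧ ν.r = 2 * (z - ν.x) ∧ Mn h u v ν.p ν.x ∧ Mn h u v ν.p z ∧
      ∀ w, Mn h u v ν.p w → ν.x ≤ w ∧ w ≤ z) ?_ ⟨y0, 2 * (z0 - y0), s0, 0, 0⟩ 0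
    ⟨le_rfl, rfl, hs0, z0, c1, rfl, c2, c3, c4⟩ ?_
  · rintro ν ε ⟨-, hq, hp, z, h1, h2, h3, h4, -⟩
    have a1 := abs_nonneg σ
    have a2 := abs_nonneg τ
    refine ⟨by linarith, by linarith [h3.1.1, h4.1.2], ?_, by rw [hq, abs_zero]; linarith⟩
    rw [abs_le]
    constructor <;> linarith [hp.1, hp.2, neg_abs_le σ, le_abs_self τ]
  rintro ⟨x, r, p, q, s'⟩ ε η ⟨hε, hq, hp, z, h1, h2, h3, h4, h5⟩ hη
  simp only at hq hp h1 h2 h3 h4 h5
  subst hq h2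
  obtain ⟨L, hL⟩ : ∃ L, L = z - x := ⟨_, rfl⟩
  have L0 : 0 < L := by linarith
  obtain ⟨κ1, k1, hk1⟩ := near hc h3 (K := Iic (x - L / 16)) isClosed_Iic fun w hw hn => by
    linarith [(h5 w hw).1, mem_Iic.1 hn]
  obtain ⟨κ2, k2, hk2⟩ := near hc h3 (K := Ici (z + L / 16)) isClosed_Ici fun w hw hn => by
    linarith [(h5 w hw).2, mem_Ici.1 hn]
  obtain ⟨κ, κ0, κa, κb, κc, κd, κe⟩ : ∃ κ > 0, κ ≤ κ1 ∧ κ ≤ κ2 ∧ κ ≤ η * L / 128 ∧ κ ≤ p - σ ∧
      κ ≤ τ - p := ⟨min κ1 (min κ2 (min (η * L / 128) (min (p - σ) (τ - p)))),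
    lt_min k1 (lt_min k2 (lt_min (by positivity) (lt_min (by linarith [hp.1]) (by linarith [hp.2])))),
    by simp, by simp, by simp, by simp, by simp⟩
  obtain ⟨s1, hs1, y1, z1, d1, d2, d3, d4⟩ := hB' (p - κ) p (by linarith) (by linarith) hp.2.le
  obtain ⟨s2, hs2, y2, z2, e1, e2, e3, e4⟩ := hB' p (p + κ) hp.1.le (by linarith) (by linarith)
  have t1 : |s1 - p| < κ := by rw [abs_lt]; constructor <;> linarith [hs1.1, hs1.2]
  have t2 : |s2 - p| < κ := by rw [abs_lt]; constructor <;> linarith [hs2.1, hs2.2]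
  have f1 := not_le.1 (mt mem_Iic.2 (hk1 s1 y1 (t1.trans_le κa) d2))
  have f2 := d3.mono h3 hs1.2
  have f3 := not_le.1 (mt mem_Ici.2 (hk2 s2 z2 (t2.trans_le κb) e3))
  have f4 := h4.mono e2 hs2.1
  have ch : ∀ s y z', |s - p| < κ → Mn h u v s y → z' - y ≤ L / 16 → |y - x| ≤ 3 / 2 * L →
      Ch h ⟨x, 2 * (z - x), p, 0, s'⟩ ⟨y, 2 * (z' - y), s, 0, L / 8⟩ (ε + η) := by
    intro s y z' a1 a2 a3 a4
    have a5 := h3.err a2
    have a6 := mul_le_mul (a1.le.trans κc) a4 (abs_nonneg _) (by positivity)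
    refine ⟨by simp only; linarith, by simp only; linarith, ?_, ?_, by simp; linarith⟩
    · simp only [zero_mul, add_zero]
      nlinarith [mul_pos hη (mul_pos L0 L0), mul_nonneg hε (mul_pos L0 L0).le]
    · simp only [zero_mul, add_zero, mul_zero]
      nlinarith [mul_pos hη L0, mul_nonneg hε L0.le]
  refine ⟨fun b => cond b ⟨y2, 2 * (z2 - y2), s2, 0, L / 8⟩ ⟨y1, 2 * (z1 - y1), s1, 0, L / 8⟩,
    fun b => ?_, ?_⟩
  · cases b
    · exact ⟨⟨hη.le, rfl, ⟨by simp only [cond]; linarith [hs1.1], hs1.2.trans hp.2⟩, z1, d1, rfl,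
        d2, d3, d4⟩, ch s1 y1 z1 t1 d2 (by linarith) (by rw [abs_le]; constructor <;> linarith)⟩
    · exact ⟨⟨hη.le, rfl, ⟨hp.1.trans hs2.1, by simp only [cond]; linarith [hs2.2]⟩, z2, e1, rfl,
        e2, e3, e4⟩, ch s2 y2 z2 t2 e2 (by linarith) (by rw [abs_le]; constructor <;> linarith)⟩
  · simp only [cond]
    exact le_trans (by linarith) (le_abs_self _)

theorem dl (hd : Differentiable ℝ h) (hn : ¬ Done h) (huv : u < v) (hl : deriv h u < deriv h v) :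
    ∃ a b, u ≤ a ∧ a < b ∧ b ≤ v ∧ MonotoneOn (deriv h) (Icc a b) := by
  have hc := hd.continuous
  have := mt (case1 hc huv.le hl) hn
  push Not at this
  obtain ⟨σ, τ, h1, h2, h3, h4⟩ := this
  choose m m' hm _ _ using exMn hc huv.le
  have un : ∀ s ∈ Ioo σ τ, ∀ w, Mn h u v s w → w = m s := fun s hs w hw => by
    by_contra hne
    rcases lt_or_gt_of_ne hne with e | e
    · exact h4 s hs _ _ e hw (hm s)
    · exact h4 s hs _ _ e (hm s) hw
  have de : ∀ s ∈ Ioo σ τ, deriv h (m s) = s := fun s hs =>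
    (hm s).der hd huv (h1.trans_lt hs.1) (hs.2.trans_le h3)
  have co : ∀ s ∈ Ioo σ τ, ContinuousAt m s := fun s hs => by
    rw [Metric.continuousAt_iff]
    intro δ hδ
    obtain ⟨κ, k0, hk⟩ := near hc (hm s) (K := (Metric.ball (m s) δ)ᶜ) Metric.isOpen_ball.isClosed_compl
      fun w hw => by rw [un s hs w hw]; simpa using hδ
    exact ⟨κ, k0, fun t ht => by simpa using hk t (m t) ht (hm t)⟩
  obtain ⟨s1, a1, a2⟩ := exists_between h2
  obtain ⟨s2, a3, a4⟩ := exists_between a2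
  have sub : Icc s1 s2 ⊆ Ioo σ τ := Icc_subset_Ioo a1 a4
  have iv := intermediate_value_Icc a3.le fun s hs => (co s (sub hs)).continuousWithinAt
  refine ⟨m s1, m s2, (hm s1).1.1, lt_of_le_of_ne ((hm s1).mono (hm s2) a3) fun e => ?_,
    (hm s2).1.2, fun y hy y' hy' e => ?_⟩
  · have b1 := de s1 ⟨a1, a2⟩
    rw [e, de s2 ⟨a1.trans a3, a4⟩] at b1
    exact a3.ne' b1
  · obtain ⟨s, hs, rfl⟩ := iv hy
    obtain ⟨s', hs', rfl⟩ := iv hy'
    by_contra hn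
    have b1 := not_le.1 hn
    have b2 := b1
    rw [de s (sub hs), de s' (sub hs')] at b2
    rw [le_antisymm e ((hm s').mono (hm s) b2)] at b1
    exact lt_irrefl _ b1

end Pool.Agent.H.MP_8d66ab_an
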