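import Pool.Agent.H.MP_8d66ab_an.B

set_option autoImplicit false
open Set Filter Topology

namespace Pool.Agent.H.MP_8d66ab_an

variable {g : ℝ → ℝ}

theorem done_neg (h : Done fun x => -g x) : Done g := by
  obtain ⟨f, h1, h2, h3⟩ := h
  refine ⟨-f, h1.neg, ?_, ?_⟩
  · rw [deriv.neg']; exact h2.neg
  · simpa only [Pi.neg_apply, neg_eq_iff_eq_neg] using h3

theorem dq (l x : ℝ) : HasDerivAt (fun x : ℝ => l / 2 * x ^ 2) (l * x) x :=
  ((hasDerivAt_pow 2 x).const_mul (l / 2)).congr_deriv (by simp; ring)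

theorem done_sub (l : ℝ) (h : Done fun x => g x - l / 2 * x ^ 2) : Done g := by
  obtain ⟨f, h1, h2, h3⟩ := h
  refine ⟨fun x => f x + l / 2 * x ^ 2, h1.add (by fun_prop), ?_, ?_⟩
  · rw [funext fun x => ((h1 x).hasDerivAt.fun_add (dq l x)).deriv]
    exact h2.add (by fun_prop)
  · simpa only [eq_sub_iff_add_eq] using h3

theorem up (hd : Differentiable ℝ g) (hn : ¬ Done g) {l u v : ℝ} (huv : u < v)
    (h : l * (v - u) < deriv g v - deriv g u) : ∃ a b, u ≤ a ∧ a < b ∧ b ≤ v ∧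
      ∀ y z, a ≤ y → y ≤ z → z ≤ b → l * (z - y) ≤ deriv g z - deriv g y := by
  have e : ∀ x, deriv (fun x => g x - l / 2 * x ^ 2) x = deriv g x - l * x := fun x =>
    ((hd x).hasDerivAt.fun_sub (dq l x)).deriv
  obtain ⟨a, b, h1, h2, h3, h4⟩ := dl (h := fun x => g x - l / 2 * x ^ 2) (hd.sub (by fun_prop))
    (mt (done_sub l) hn) huv (by rw [e, e]; linarith)
  refine ⟨a, b, h1, h2, h3, fun y z a1 a2 a3 => ?_⟩
  have := h4 ⟨a1, a2.trans a3⟩ ⟨a1.trans a2, a3⟩ a2
  rw [e, e] at this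
  linarith

theorem down (hd : Differentiable ℝ g) (hn : ¬ Done g) {l u v : ℝ} (huv : u < v)
    (h : deriv g v - deriv g u < l * (v - u)) : ∃ a b, u ≤ a ∧ a < b ∧ b ≤ v ∧
      ∀ y z, a ≤ y → y ≤ z → z ≤ b → deriv g z - deriv g y ≤ l * (z - y) := by
  obtain ⟨a, b, h1, h2, h3, h4⟩ := up (g := fun x => -g x) (l := -l) hd.neg (mt done_neg hn) huv
    (by simp only [deriv.fun_neg]; linarith)
  refine ⟨a, b, h1, h2, h3, fun y z a1 a2 a3 => ?_⟩
  have := h4 y z a1 a2 a3
  simp only [deriv.fun_neg] at this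
  linarith

/-- two sided slope bounds for the derivative -/
def Wn (g : ℝ → ℝ) (a b α β : ℝ) : Prop := ∀ y z, a ≤ y → y ≤ z → z ≤ b →
  α * (z - y) ≤ deriv g z - deriv g y ∧ deriv g z - deriv g y ≤ β * (z - y)

theorem Wn.sub {a b α β a' b' : ℝ} (h : Wn g a b α β) (h1 : a ≤ a') (h2 : b' ≤ b) :
    Wn g a' b' α β := fun y z a1 a2 a3 => h y z (h1.trans a1) a2 (a3.trans h2)

theorem Wn.le {a b α β : ℝ} (h : Wn g a b α β) (hab : a < b) : α ≤ β := by
  have := h a b le_rfl hab.le le_rfl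
  by_contra hn
  nlinarith [not_le.1 hn, this.1, this.2]

theorem Wn.abs {a b α β y z : ℝ} (h : Wn g a b α β) (hy : y ∈ Icc a b) (hz : z ∈ Icc a b) :
    |deriv g z - (deriv g y + α * (z - y))| ≤ (β - α) * |z - y| := by
  rcases le_total y z with e | e
  · have := h y z hy.1 e hz.2
    rw [abs_of_nonneg (by linarith), abs_of_nonneg (by linarith)]
    linarith
  · have := h z y hz.1 e hy.2
    rw [abs_of_nonpos (by linarith), abs_of_nonpos (by linarith)]
    linarith

theorem refine (hd : Differentiable ℝ g) (hn : ¬ Done g) {a b α β : ℝ} (hab : a < b)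
    (h : Wn g a b α β) (n : ℕ) : ∃ a' b' α' β', a ≤ a' ∧ a' < b' ∧ b' ≤ b ∧ α ≤ α' ∧ β' ≤ β ∧
      β' - α' = (β - α) * (1 / 2) ^ n ∧ Wn g a' b' α' β' := by
  induction n with
  | zero => exact ⟨a, b, α, β, le_rfl, hab, le_rfl, le_rfl, le_rfl, by simp, h⟩
  | succ n ih =>
    obtain ⟨a', b', α', β', h1, h2, h3, h4, h5, h6, h7⟩ := ih
    have hl := h7.le h2
    by_cases hc : ∃ u v, a' ≤ u ∧ u < v ∧ v ≤ b' ∧ (α' + β') / 2 * (v - u) < deriv g v - deriv g u
    · obtain ⟨u, v, c1, c2, c3, c4⟩ := hc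
      obtain ⟨a'', b'', d1, d2, d3, d4⟩ := up hd hn c2 c4
      exact ⟨a'', b'', (α' + β') / 2, β', by linarith, d2, by linarith, by linarith, h5,
        by rw [pow_succ]; linarith, fun y z e1 e2 e3 =>
          ⟨d4 y z e1 e2 e3, (h7 y z (by linarith) e2 (by linarith)).2⟩⟩
    · push Not at hc
      refine ⟨a', b', α', (α' + β') / 2, h1, h2, h3, h4, by linarith, by rw [pow_succ]; linarith,
        fun y z e1 e2 e3 => ⟨(h7 y z e1 e2 e3).1, ?_⟩⟩
      rcases e2.eq_or_lt with rfl | e2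
      · simp
      · exact hc y z e1 e2 e3

theorem start (hd : Differentiable ℝ g) (hn : ¬ Done g) : ∃ a b α β, a < b ∧ Wn g a b α β := by
  by_cases hc : ∃ u v, u < v ∧ 0 * (v - u) < deriv g v - deriv g u
  · obtain ⟨u, v, c2, c4⟩ := hc
    obtain ⟨a, b, -, d2, -, d4⟩ := up hd hn c2 c4
    obtain ⟨a', b', e1, e2, e3, e4⟩ := down hd hn (l := (deriv g b - deriv g a) / (b - a) + 1) d2 (by
      rw [add_mul, div_mul_cancel₀ _ (sub_pos.2 d2).ne']; linarith)
    exact ⟨a', b', 0, _, e2, fun y z a1 a2 a3 =>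
      ⟨d4 y z (by linarith) a2 (by linarith), e4 y z a1 a2 a3⟩⟩
  · push Not at hc
    obtain ⟨a, b, -, d2, -, d4⟩ := up hd hn (l := deriv g 1 - deriv g 0 - 1) one_pos (by linarith)
    refine ⟨a, b, _, 0, d2, fun y z a1 a2 a3 => ⟨d4 y z a1 a2 a3, ?_⟩⟩
    rcases a2.eq_or_lt with rfl | e2
    · simp
    · exact hc y z e2

theorem main (hd : Differentiable ℝ g) : Done g := by
  by_contra hn
  obtain ⟨a0, b0, α0, β0, h0, w0⟩ := start hd hn
  have l0 := w0.le h0
  refine hn (scheme g hd.continuous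
    ((b0 - a0) + |deriv g a0| + (|α0| + (β0 - α0)) * (b0 - a0) + (|α0| + |β0|))
    (fun ν ε => ∃ α β, α0 ≤ α ∧ β ≤ β0 ∧ 64 * (β - α) ≤ ε ∧ ν.q = α / 2 ∧ ν.p = deriv g ν.x ∧
      0 < ν.r ∧ a0 ≤ ν.x - ν.r ∧ ν.x + ν.r ≤ b0 ∧ Wn g (ν.x - ν.r) (ν.x + ν.r) α β) ?_
    ⟨(a0 + b0) / 2, (b0 - a0) / 2, deriv g ((a0 + b0) / 2), α0 / 2, 0⟩ (64 * (β0 - α0))
    ⟨α0, β0, le_rfl, le_rfl, le_rfl, rfl, rfl, by simp only; linarith, by simp only; linarith,
      by simp only; linarith, w0.sub (by simp only; linarith) (by simp only; linarith)⟩ ?_)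
  · rintro ⟨x, r, p, q, s⟩ ε ⟨α, β, h1, h2, -, h4, h5, h6, h7, h8, h9⟩
    simp only at h4 h5 h6 h7 h8 h9 ⊢
    have a1 := abs_nonneg α0
    have a2 := abs_nonneg β0
    have a3 := abs_nonneg (deriv g a0)
    have a4 : 0 ≤ (|α0| + (β0 - α0)) * (b0 - a0) := mul_nonneg (by linarith) (by linarith)
    have a5 := h9.le (by linarith)
    refine ⟨h6, by linarith, ?_, ?_⟩
    · have b1 := w0.abs (y := a0) (z := x) ⟨le_rfl, h0.le⟩ ⟨by linarith, by linarith⟩
      have b2 := abs_add_three (deriv g x - (deriv g a0 + α0 * (x - a0))) (deriv g a0) (α0 * (x - a0))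
      rw [abs_mul, show deriv g x - (deriv g a0 + α0 * (x - a0)) + deriv g a0 + α0 * (x - a0) =
        deriv g x by ring] at b2
      have b3 : |x - a0| ≤ b0 - a0 := by rw [abs_le]; constructor <;> linarith
      have b4 := mul_le_mul_of_nonneg_left b3 (show 0 ≤ |α0| + (β0 - α0) by linarith)
      rw [h5]
      linarith
    · rw [h4, abs_le]
      constructor <;> linarith [neg_abs_le α0, le_abs_self β0]
  rintro ⟨x, r, p, q, s⟩ ε η ⟨α, β, h1, h2, h3, h4, h5, h6, h7, h8, h9⟩ hη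
  simp only at h4 h5 h6 h7 h8 h9
  subst h4 h5
  have a5 := h9.le (by linarith)
  obtain ⟨n, hn'⟩ := exists_pow_lt_of_lt_one (show 0 < η / (64 * (β - α) + 1) by
    exact div_pos hη (by linarith)) (show (1 / 2 : ℝ) < 1 by norm_num)
  rw [lt_div_iff₀ (by linarith)] at hn'
  have kid : ∀ m, |m - x| = r / 2 → ∃ c : Nd, ((∃ α β, α0 ≤ α ∧ β ≤ β0 ∧ 64 * (β - α) ≤ η ∧
      c.q = α / 2 ∧ c.p = deriv g c.x ∧ 0 < c.r ∧ a0 ≤ c.x - c.r ∧ c.x + c.r ≤ b0 ∧
      Wn g (c.x - c.r) (c.x + c.r) α β) ∧ Ch g ⟨x, r, deriv g x, α / 2, s⟩ c (ε + η)) ∧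
      c.s = r / 8 ∧ |c.x - m| ≤ r / 8 := by
    intro m hm
    have m1 := abs_le.1 hm.le
    obtain ⟨a', b', α', β', e1, e2, e3, e4, e5, e6, e7⟩ := refine hd hn
      (show m - r / 8 < m + r / 8 by linarith) (h9.sub (by linarith) (by linarith)) n
    have a6 := e7.le e2
    obtain ⟨y, hy⟩ : ∃ y, y = (a' + b') / 2 := ⟨_, rfl⟩
    have y1 : |y - x| ≤ 5 / 8 * r := by rw [abs_le]; constructor <;> linarith
    have y2 : y ∈ Icc (x - r) (x + r) := by rw [abs_le] at y1; constructor <;> linarith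
    have x2 : x ∈ Icc (x - r) (x + r) := by constructor <;> linarith
    have D : ∀ z ∈ Icc (x - r) (x + r), |deriv g z - (deriv g x + α * (z - x))| ≤ (β - α) * r :=
      fun z hz => (h9.abs x2 hz).trans (mul_le_mul_of_nonneg_left
        (by rw [abs_le]; constructor <;> linarith [hz.1, hz.2]) (by linarith))
    refine ⟨⟨y, (b' - a') / 2, deriv g y, α' / 2, r / 8⟩, ⟨⟨α', β', by linarith, by linarith, ?_, rfl,
      rfl, by simp only; linarith, by simp only; linarith, by simp only; linarith,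
      e7.sub (by simp only; linarith) (by simp only; linarith)⟩, by simp only; linarith,
      by simp only; linarith, ?_, ?_, ?_⟩, rfl, by rw [abs_le]; constructor <;> simp only <;> linarith⟩
    · rw [e6]
      have : (0 : ℝ) < (1 / 2) ^ n := by positivity
      nlinarith
    · have := (convex_Icc (x - r) (x + r)).norm_image_sub_le_of_norm_hasDerivWithin_le
        (f := fun z => g z - (deriv g x * (z - x) + α / 2 * (z - x) ^ 2))
        (f' := fun z => deriv g z - (deriv g x + α * (z - x))) (fun z _ => by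
          have a := (hasDerivAt_id z).sub_const x
          exact (((hd z).hasDerivAt.sub ((a.const_mul (deriv g x)).add
            ((a.pow 2).const_mul (α / 2)))).congr_deriv (by simp; ring)).hasDerivWithinAt) D x2 y2
      simp only [Real.norm_eq_abs, sub_self, mul_zero] at this ⊢
      have b1 := mul_le_mul_of_nonneg_left y1 (show 0 ≤ (β - α) * r from mul_nonneg (by linarith) h6.le)
      have b2 : g y - (g x + deriv g x * (y - x) + α / 2 * (y - x) ^ 2) =
          g y - (deriv g x * (y - x) + α / 2 * (y - x) ^ 2) - (g x - (0 + α / 2 * 0 ^ 2)) := by ring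
      rw [b2]
      nlinarith [mul_pos h6 h6, mul_pos hη (mul_pos h6 h6),
        mul_nonneg (sub_nonneg.2 a5) (mul_pos h6 h6).le]
    · have := D y y2
      simp only
      rw [show 2 * (α / 2) = α by ring]
      nlinarith [mul_pos hη h6, mul_nonneg (sub_nonneg.2 a5) h6.le]
    · simp only
      rw [abs_le]
      constructor <;> linarith
  obtain ⟨c0, k1, k2, k3⟩ := kid (x - r / 2) (by
    rw [sub_sub_cancel_left, abs_neg, abs_of_pos (by linarith)])
  obtain ⟨c1, k4, k5, k6⟩ := kid (x + r / 2) (by rw [add_sub_cancel_left, abs_of_pos (by linarith)])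
  refine ⟨fun b => cond b c1 c0, fun b => by cases b; exacts [k1, k4], ?_⟩
  simp only [cond]
  rw [abs_le] at k3 k6
  exact le_trans (by linarith [k3.2, k6.1]) (le_abs_self _)

end Pool.Agent.H.MP_8d66ab_an
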